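import Pool.Agent.TH368.GT.Cnt

/-!
# The smallest graceful tree containing a given tree: `γ(T) ≤ m + L + L' - 4`

Let `T` be a finite tree with `m` edges, `L` leaves, and `L'` vertices which are no leaves and have
at most one neighbour which is no leaf.  Then `T` is a subtree of a graceful tree with at most
`m + (L + L' - 4)` edges, in particular with at most `m + 2 (L - 2)` edges if `m ≥ 3`.  Also, for
every root `r`, `T` is a subtree of a graceful tree with at most `m + 2 (n - 1)` edges, where `n` is
the number of vertices at even distance from `r` without grandchildren.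
-/

set_option autoImplicit false

namespace Pool.Agent.Results.MP_128071_co.LeafBound

/-- A graph with `m` edges is graceful if there is an injective map `f` of the vertices to
`{0, 1, …, m}` such that the edge labels `|f u - f v|` are exactly `1, …, m`. -/
def Graceful {V : Type} (T : SimpleGraph V) : Prop :=
  ∃ f : V → ℕ, Function.Injective f ∧ (∀ v, f v ≤ T.edgeSet.ncard) ∧
    {d : ℕ | ∃ u v : V, T.Adj u v ∧ d = Int.natAbs ((f u : ℤ) - (f v : ℤ))} =
      Set.Icc 1 T.edgeSet.ncard

/-- The numbers of edges of the finite graceful trees which have a subgraph isomorphic to `T`. -/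
def gracefulSizes {V : Type} (T : SimpleGraph V) : Set ℕ :=
  {k | ∃ (W : Type) (_ : Fintype W) (T' : SimpleGraph W),
    T'.IsTree ∧ Graceful T' ∧ T.IsContained T' ∧ T'.edgeSet.ncard = k}

/-- `γ(T)`: the least number of edges of a graceful tree which has a subgraph isomorphic to `T`. -/
noncomputable def gamma {V : Type} (T : SimpleGraph V) : ℕ := sInf (gracefulSizes T)

theorem le_of_mem {V : Type} {T : SimpleGraph V} {k : ℕ}
    (hk : k ∈ gracefulSizes T) : T.edgeSet.ncard ≤ k := by
  classical
  obtain ⟨W, _, T', _, _, ⟨φ⟩, rfl⟩ := hk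
  have hinj : Function.Injective φ := φ.injective
  have h1 : Sym2.map φ '' T.edgeSet ⊆ T'.edgeSet := by
    rintro _ ⟨e, he, rfl⟩
    induction e using Sym2.ind with
    | _ x y =>
      rw [Sym2.map_mk, SimpleGraph.mem_edgeSet]
      exact φ.toHom.map_adj ((SimpleGraph.mem_edgeSet T).1 he)
  calc T.edgeSet.ncard = (Sym2.map φ '' T.edgeSet).ncard :=
        (Set.ncard_image_of_injective _ (Sym2.map.injective hinj)).symm
    _ ≤ T'.edgeSet.ncard := Set.ncard_le_ncard h1 (Set.toFinite _)

/-- Let `T` be a finite tree with `m` edges, `L` leaves (vertices with exactly one neighbour), and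
`L'` vertices which have at least two neighbours, at most one of them with at least two neighbours.
Then `γ(T)` is attained, `m ≤ γ(T) ≤ m + (L + L' - 4)` (truncated subtraction), in particular
`γ(T) ≤ m + 2 (L - 2)`, and for every vertex `r`, `γ(T) ≤ m + 2 (n - 1)`, where `n` is the number of
vertices `v` at even distance from `r` such that no `z` at distance `dist r v + 2` from `r` has a
common neighbour with `v`. -/
theorem result (V : Type) [Fintype V] (T : SimpleGraph V) (hT : T.IsTree) :
    gamma T ∈ gracefulSizes T ∧ T.edgeSet.ncard ≤ gamma T ∧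
      gamma T ≤ T.edgeSet.ncard + ({x : V | (T.neighborSet x).ncard = 1}.ncard +
        {x : V | 2 ≤ (T.neighborSet x).ncard ∧
          {y : V | T.Adj x y ∧ 2 ≤ (T.neighborSet y).ncard}.ncard ≤ 1}.ncard - 4) ∧
      gamma T ≤ T.edgeSet.ncard + 2 * ({x : V | (T.neighborSet x).ncard = 1}.ncard - 2) ∧
      ∀ r : V, gamma T ≤ T.edgeSet.ncard + 2 * ({v : V | Even (T.dist r v) ∧
        ∀ w z, T.Adj v w → T.Adj w z → T.dist r z ≠ T.dist r v + 2}.ncard - 1) := by
  have hup : ∀ r : V, ∃ k ∈ gracefulSizes T, k ≤ T.edgeSet.ncard +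
      2 * ((Pool.Agent.TH368.GT.noGrand T r).ncard - 1) := by
    intro r
    obtain ⟨M, G, h1, h2, h3, h4, h5, -⟩ := Pool.Agent.TH368.GT.exists_super hT r
    refine ⟨M, ⟨Fin (M + 1), inferInstance, G, h2, ⟨fun x => (x : ℕ), Fin.val_injective, ?_, ?_⟩,
      h5, h3⟩, h1⟩
    · intro v
      rw [h3]
      exact Nat.le_of_lt_succ v.2
    · rw [h3]
      exact h4
  obtain ⟨r, hr⟩ := Pool.Agent.TH368.GT.exists_good hT
  obtain ⟨k, hk1, hk2⟩ := hup r
  have hmem : gamma T ∈ gracefulSizes T := Nat.sInf_mem ⟨k, hk1⟩
  have h1 := ((Nat.sInf_le hk1).trans hk2).trans (Nat.add_le_add_left hr _)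
  refine ⟨hmem, le_of_mem hmem, h1, ?_, ?_⟩
  · have h2 := Pool.Agent.TH368.GT.card_le_leaves T
    refine h1.trans (Nat.add_le_add_left ?_ _)
    omega
  · intro r'
    obtain ⟨k', hk1', hk2'⟩ := hup r'
    exact (Nat.sInf_le hk1').trans hk2'

end Pool.Agent.Results.MP_128071_co.LeafBound
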