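import Pool.Agent.TH368.GW.Cnt

/-!
# The smallest graceful tree containing a given tree: `γ(T) ≤ m + 2 (k + 1) (L' - 2)`

Let `T` be a finite tree with `m` edges such that the vertices of one of the two colour classes have
at most `k` neighbours which are leaves, and let `L'` be the number of leaves of the tree obtained
from `T` by deleting all leaves.  Then `T` is a subtree of a graceful tree with at most
`m + 2 (k + 1) (L' - 2)` edges.
-/

set_option autoImplicit false

namespace Pool.Agent.Results.MP_128071_co.LeafDegreeBound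

/-- A graph with `m` edges is graceful if there is an injective map `f` of the vertices to
`{0, 1, …, m}` such that the edge labels `|f u - f v|` are exactly `1, …, m`. -/
def Graceful {V : Type} (T : SimpleGraph V) : Prop :=
  ∃ f : V → ℕ, Function.Injective f ∧ (∀ v, f v ≤ T.edgeSet.ncard) ∧
    {d : ℕ | ∃ u v : V, T.Adj u v ∧ d = Int.natAbs ((f u : ℤ) - (f v : ℤ))} =
      Set.Icc 1 T.edgeSet.ncard

/-- The numbers of edges of the finite graceful trees which have a subgraph isomorphic to `T`. -/
def gracefulSizes {V : Type} (T : SimpleGraph V) : Set ℕ :=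
  {k | ∃ (W : Type) (_ : Fintype W) (T' : SimpleGraph W),
    T'.IsTree ∧ Graceful T' ∧ T.IsContained T' ∧ T'.edgeSet.ncard = k}

/-- `γ(T)`: the least number of edges of a graceful tree which has a subgraph isomorphic to `T`. -/
noncomputable def gamma {V : Type} (T : SimpleGraph V) : ℕ := sInf (gracefulSizes T)

/-- The number of the vertices of `T` which are not leaves and have at most one neighbour that is
not a leaf, i.e. of the vertices of degree at most `1` of the tree obtained from `T` by deleting all
leaves. -/
noncomputable def derivedLeaves {V : Type} (T : SimpleGraph V) : ℕ :=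
  {x : V | 2 ≤ (T.neighborSet x).ncard ∧
    {y : V | T.Adj x y ∧ 2 ≤ (T.neighborSet y).ncard}.ncard ≤ 1}.ncard

theorem le_of_mem {V : Type} {T : SimpleGraph V} {k : ℕ}
    (hk : k ∈ gracefulSizes T) : T.edgeSet.ncard ≤ k := by
  classical
  obtain ⟨W, _, T', _, _, ⟨φ⟩, rfl⟩ := hk
  have hinj : Function.Injective φ := φ.injective
  have h1 : Sym2.map φ '' T.edgeSet ⊆ T'.edgeSet := by
    rintro _ ⟨e, he, rfl⟩
    induction e using Sym2.ind with
    | _ x y =>
      rw [Sym2.map_mk, SimpleGraph.mem_edgeSet]
      exact φ.toHom.map_adj ((SimpleGraph.mem_edgeSet T).1 he)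
  calc T.edgeSet.ncard = (Sym2.map φ '' T.edgeSet).ncard :=
        (Set.ncard_image_of_injective _ (Sym2.map.injective hinj)).symm
    _ ≤ T'.edgeSet.ncard := Set.ncard_le_ncard h1 (Set.toFinite _)

/-- Let `T` be a finite tree with `m` edges, `c` a proper colouring of `T` with two colours, `s` a
colour and `k` a number such that every vertex of colour `s` has at most `k` neighbours which are
leaves.  Then `γ(T)` is attained and `m ≤ γ(T) ≤ m + 2 (k + 1) (L' - 2)`, where `L'` is the number of
the vertices which are not leaves and have at most one neighbour that is not a leaf (truncated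
subtraction). -/
theorem result (V : Type) [Fintype V] (T : SimpleGraph V) (hT : T.IsTree)
    (c : V → Bool) (hc : ∀ u v, T.Adj u v → c u ≠ c v) (s : Bool) (k : ℕ)
    (hk : ∀ p, c p = s → {v : V | T.Adj p v ∧ (T.neighborSet v).ncard = 1}.ncard ≤ k) :
    gamma T ∈ gracefulSizes T ∧ T.edgeSet.ncard ≤ gamma T ∧
      gamma T ≤ T.edgeSet.ncard + 2 * (k + 1) * (derivedLeaves T - 2) := by
  obtain ⟨M, G, h1, h2, h3, h4, h5⟩ := Pool.Agent.TH368.GW.main hT hc s k hk
  have hk1 : M ∈ gracefulSizes T := by
    refine ⟨Fin (M + 1), inferInstance, G, h2, ⟨fun x => (x : ℕ), Fin.val_injective, ?_, ?_⟩,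
      h5, h3⟩
    · intro v
      rw [h3]
      exact Nat.le_of_lt_succ v.2
    · rw [h3]
      exact h4
  have hmem : gamma T ∈ gracefulSizes T := Nat.sInf_mem ⟨M, hk1⟩
  exact ⟨hmem, le_of_mem hmem, (Nat.sInf_le hk1).trans h1⟩

end Pool.Agent.Results.MP_128071_co.LeafDegreeBound
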